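import Pool.Agent.Q55.LM.Stm

/-! Project LM of helper55, jobs LM-FAMX and LM-FAMT (helper129): explicit changes of coordinates. -/

set_option autoImplicit false

namespace Pool.Agent.Q129.LM.Fam

open Module Pool.Agent.Q55.LM MvPolynomial

section gen
variable {R : Type} [CommRing R] [Algebra ℂ R] {w : Fin 3 → ℕ} {ξ : Fin 3 → R}

/-- the values of the forms of weight `j` -/
noncomputable def img (w : Fin 3 → ℕ) (ξ : Fin 3 → R) (j : ℕ) : Submodule ℂ R :=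
  (weightedHomogeneousSubmodule ℂ w j).map (aeval ξ : MvPolynomial (Fin 3) ℂ →ₐ[ℂ] R).toLinearMap

theorem mem_img {j : ℕ} {b : R} : b ∈ img w ξ j ↔
    ∃ p : MvPolynomial (Fin 3) ℂ, p.IsWeightedHomogeneous w j ∧ aeval ξ p = b := by
  unfold img
  rw [Submodule.mem_map]
  rfl

theorem img_mul {i j : ℕ} {a b : R} (ha : a ∈ img w ξ i) (hb : b ∈ img w ξ j) : a * b ∈ img w ξ (i + j) := by
  rw [mem_img] at *
  obtain ⟨p, hp, rfl⟩ := ha
  obtain ⟨q, hq, rfl⟩ := hb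
  exact ⟨p * q, hp.mul hq, map_mul _ _ _⟩

theorem img_zero : (1 : R) ∈ img w ξ 0 := mem_img.2 ⟨1, isWeightedHomogeneous_one ℂ w, map_one _⟩

theorem img_one (h : (1 : R) ∈ img w ξ 1) (j : ℕ) : (1 : R) ∈ img w ξ j := by
  induction j with
  | zero => exact img_zero
  | succ j ih =>
    have := img_mul ih h
    rwa [mul_one] at this

theorem img_pow {i : ℕ} {a : R} (ha : a ∈ img w ξ i) (k : ℕ) : a ^ k ∈ img w ξ (k * i) := by
  induction k with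
  | zero => rw [pow_zero, zero_mul]; exact img_zero
  | succ k ih =>
    rw [pow_succ, Nat.succ_mul]
    exact img_mul ih ha

theorem img_le (h : (1 : R) ∈ img w ξ 1) {i j : ℕ} (hij : i ≤ j) {a : R} (ha : a ∈ img w ξ i) :
    a ∈ img w ξ j := by
  have := img_mul ha (img_one h (j - i))
  rwa [mul_one, Nat.add_sub_cancel' hij] at this

end gen

section curve
variable {A B : ℂ} {g : Gen1 (RR A B)}

/-- the function `x` -/
noncomputable def xx (A B : ℂ) : RR A B := algebraMap (Polynomial ℂ) (RR A B) Polynomial.X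

theorem yy_eq (A B : ℂ) : yy A B ^ 2 =
    xx A B ^ 3 + algebraMap ℂ (RR A B) A * xx A B + algebraMap ℂ (RR A B) B := by
  rw [yy_sq]
  unfold ff xx
  rw [map_add, map_add, map_mul, map_pow]
  rfl

/-- the hypothesis of `S_Ell` -/
def HF (g : Gen1 (RR A B)) : Prop := ∀ i,
  g.fil i = Submodule.span ℂ
    ({b | ∃ a : ℕ, 2 * a ≤ i ∧ b = (algebraMap (Polynomial ℂ) (RR A B) Polynomial.X) ^ a} ∪
     {b | ∃ a : ℕ, 2 * a + 3 ≤ i ∧
      b = (algebraMap (Polynomial ℂ) (RR A B) Polynomial.X) ^ a * yy A B})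

theorem x_mem (hg : HF g) {i : ℕ} (hi : 2 ≤ i) : xx A B ∈ g.fil i := by
  rw [hg i]
  apply Submodule.subset_span
  left
  exact ⟨1, by omega, by rw [pow_one]; rfl⟩

theorem y_mem (hg : HF g) {i : ℕ} (hi : 3 ≤ i) : yy A B ∈ g.fil i := by
  rw [hg i]
  apply Submodule.subset_span
  right
  exact ⟨0, by omega, by rw [pow_zero, one_mul]⟩

theorem c_mem (g : Gen1 (RR A B)) (c : ℂ) (i : ℕ) : algebraMap ℂ (RR A B) c ∈ g.fil i := by
  rw [Algebra.algebraMap_eq_smul_one]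
  exact Submodule.smul_mem _ _ (g.one_mem i)

theorem c_mul_mem (g : Gen1 (RR A B)) (c : ℂ) {i : ℕ} {b : RR A B} (hb : b ∈ g.fil i) :
    algebraMap ℂ (RR A B) c * b ∈ g.fil i := by
  rw [← Algebra.smul_def]
  exact Submodule.smul_mem _ _ hb

end curve

/-- the numbers of the family `X` -/
theorem numX {r m c t A B : ℂ} (hr : r ≠ 0) (hs : r ^ 4 - 1 ≠ 0) (hm : m = (r ^ 4 + 1) / r ^ 2)
    (hc : c = 2 * (r ^ 4 - 1) / r) (ht : t = (5 * (r ^ 4 - 1) + 4) / (12 * (r ^ 4 - 1) ^ 2))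
    (hA : A = -((r ^ 4 - 1) ^ 2 + 16 * (r ^ 4 - 1) + 16) / (48 * (r ^ 4 - 1) ^ 4))
    (hB : B = ((r ^ 4 - 1) ^ 3 - 30 * (r ^ 4 - 1) ^ 2 - 96 * (r ^ 4 - 1) - 64) / (864 * (r ^ 4 - 1) ^ 6)) :
    1 - 4 * r * (c * t) + (6 * r ^ 2 - m) * c ^ 2 * t ^ 2 - (4 * r ^ 3 - 2 * m * r) * c ^ 3 * t ^ 3 +
      (r ^ 4 + 1 - m * r ^ 2) * c ^ 4 * t ^ 4 = -(c ^ 4 * B) ∧
    -(4 * r * c) + 2 * (6 * r ^ 2 - m) * c ^ 2 * t - 3 * (4 * r ^ 3 - 2 * m * r) * c ^ 3 * t ^ 2 +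
      4 * (r ^ 4 + 1 - m * r ^ 2) * c ^ 4 * t ^ 3 = -(c ^ 4 * A) ∧
    (6 * r ^ 2 - m) * c ^ 2 - 3 * (4 * r ^ 3 - 2 * m * r) * c ^ 3 * t +
      6 * (r ^ 4 + 1 - m * r ^ 2) * c ^ 4 * t ^ 2 = 0 ∧
    -((4 * r ^ 3 - 2 * m * r) * c ^ 3) + 4 * (r ^ 4 + 1 - m * r ^ 2) * c ^ 4 * t = -c ^ 4 ∧
    (r ^ 4 + 1 - m * r ^ 2) * c ^ 4 = 0 ∧
    4 * A ^ 3 + 27 * B ^ 2 = -(r ^ 4) / (256 * (r ^ 4 - 1) ^ 8) := by
  have h4 : r ^ 4 + 1 - m * r ^ 2 = 0 := by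
    rw [hm]
    field_simp
    ring
  rw [h4]
  refine ⟨?_, ?_, ?_, ?_, ?_, ?_⟩
  · rw [hm, hc, ht, hB]
    field_simp
    ring
  · rw [hm, hc, ht, hA]
    field_simp
    ring
  · rw [hm, hc, ht]
    field_simp
    ring
  · rw [hm, hc]
    field_simp
    ring
  · ring
  · rw [hA, hB]
    field_simp
    ring

/-- the numbers of the family `T` -/
theorem numT {l k t A B : ℂ} (hs : l ^ 3 + 27 ≠ 0) (hk : k = 4 * (l ^ 3 + 27) / 27)
    (ht : t = l ^ 2 / (9 * k ^ 2)) (hA : A = l * (36 - k) / (36 * k ^ 4))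
    (hB : B = (k ^ 2 + 72 * k - 432) / (216 * k ^ 6)) :
    2 - 12 * l * k * t + 18 * l ^ 2 * k ^ 2 * t ^ 2 - (8 * l ^ 3 + 216) * k ^ 3 * t ^ 3 = -(54 * k ^ 4 * B) ∧
    -(12 * l * k) + 36 * l ^ 2 * k ^ 2 * t - 3 * (8 * l ^ 3 + 216) * k ^ 3 * t ^ 2 = -(54 * k ^ 4 * A) ∧
    18 * l ^ 2 * k ^ 2 - 3 * (8 * l ^ 3 + 216) * k ^ 3 * t = 0 ∧
    -((8 * l ^ 3 + 216) * k ^ 3) = -(54 * k ^ 4) ∧
    4 * A ^ 3 + 27 * B ^ 2 = 4 / (27 * k ^ 9) := by
  have hk0 : k ≠ 0 := by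
    rw [hk]
    exact div_ne_zero (mul_ne_zero (by norm_num) hs) (by norm_num)
  have h1 : 8 * l ^ 3 + 216 = 54 * k := by rw [hk]; ring
  have h2 : l ^ 3 = 27 / 4 * k - 27 := by rw [hk]; ring
  rw [h1]
  refine ⟨?_, ?_, ?_, ?_, ?_⟩
  · rw [ht, hB]
    field_simp
    linear_combination (216 * (-972 * k + 108 * (l ^ 3 + (27 / 4 * k - 27)))) * h2
  · rw [ht, hA]
    field_simp
    linear_combination (36 * l * 162) * h2
  · rw [ht]
    field_simp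
    ring
  · ring
  · rw [hA, hB]
    field_simp
    linear_combination (27 * 4 * (36 - k) ^ 3 * 216 ^ 2) * h2

/-- **LM-FAMX** -/
theorem famX : S_FamX := by
  intro hE hI l hl
  -- the root
  obtain ⟨r, hr4⟩ : ∃ r : ℂ, r ^ 4 - l ^ 2 / 4 * r ^ 2 + 1 = 0 := by
    obtain ⟨z, hz⟩ := IsAlgClosed.exists_pow_nat_eq ((l ^ 2 / 4) ^ 2 - 4) (n := 2) (by norm_num)
    obtain ⟨r, hr⟩ := IsAlgClosed.exists_pow_nat_eq ((l ^ 2 / 4 + z) / 2) (n := 2) (by norm_num)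
    refine ⟨r, ?_⟩
    have h1 : r ^ 4 = (r ^ 2) ^ 2 := by ring
    rw [h1, hr]
    linear_combination (1 / 4) * hz
  have hr : r ≠ 0 := by
    rintro rfl
    norm_num at hr4
  have hm : l ^ 2 = 4 * ((r ^ 4 + 1) / r ^ 2) := by
    field_simp
    linear_combination (-4) * hr4
  have hs : r ^ 4 - 1 ≠ 0 := by
    intro h
    apply hl
    have h1 : r ^ 4 = 1 := by linear_combination h
    have h2 : l ^ 4 = (l ^ 2) ^ 2 := by ring
    rw [h2, hm]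
    field_simp
    rw [h1]
    norm_num
  obtain ⟨m, hmd⟩ : ∃ m : ℂ, m = (r ^ 4 + 1) / r ^ 2 := ⟨_, rfl⟩
  obtain ⟨c, hcd⟩ : ∃ c : ℂ, c = 2 * (r ^ 4 - 1) / r := ⟨_, rfl⟩
  obtain ⟨t, htd⟩ : ∃ t : ℂ, t = (5 * (r ^ 4 - 1) + 4) / (12 * (r ^ 4 - 1) ^ 2) := ⟨_, rfl⟩
  obtain ⟨A, hAd⟩ : ∃ A : ℂ, A = -((r ^ 4 - 1) ^ 2 + 16 * (r ^ 4 - 1) + 16) / (48 * (r ^ 4 - 1) ^ 4) :=
    ⟨_, rfl⟩
  obtain ⟨B, hBd⟩ : ∃ B : ℂ, B = ((r ^ 4 - 1) ^ 3 - 30 * (r ^ 4 - 1) ^ 2 - 96 * (r ^ 4 - 1) - 64) /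
    (864 * (r ^ 4 - 1) ^ 6) := ⟨_, rfl⟩
  obtain ⟨e0, e1, e2, e3, e4, e5⟩ := numX hr hs hmd hcd htd hAd hBd
  rw [← hmd] at hm
  have hc : c ≠ 0 := by
    rw [hcd]
    exact div_ne_zero (mul_ne_zero (by norm_num) hs) hr
  have hD : 4 * A ^ 3 + 27 * B ^ 2 ≠ 0 := by
    rw [e5]
    exact div_ne_zero (neg_ne_zero.2 (pow_ne_zero 4 hr)) (mul_ne_zero (by norm_num) (pow_ne_zero 8 hs))
  clear hmd hcd htd hAd hBd e5
  refine ⟨A, B, hD, ?_⟩
  obtain ⟨g, hg⟩ := hE A B hD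
  refine ⟨g, ?_⟩
  have hy := yy_eq A B
  -- the constants in the ring
  obtain ⟨ι, hι⟩ : ∃ ι : ℂ →+* RR A B, ι = algebraMap ℂ (RR A B) := ⟨_, rfl⟩
  rw [← hι] at hy
  have E0 := congrArg ι e0
  have E1 := congrArg ι e1
  have E2 := congrArg ι e2
  have E3 := congrArg ι e3
  have E4 := congrArg ι e4
  have EM : ι (l / 2) ^ 2 = ι m := by
    rw [← map_pow]
    congr 1
    linear_combination (1 / 4) * hm
  have EL : ι l = 2 * ι (l / 2) := by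
    rw [← map_ofNat ι 2, ← map_mul]
    congr 1
    ring
  simp only [map_add, map_sub, map_mul, map_pow, map_neg, map_one, map_zero, map_ofNat] at E0 E1 E2 E3 E4
  -- the coordinates
  obtain ⟨z, hz⟩ : ∃ z : RR A B, z = -ι c * (xx A B + ι t) := ⟨_, rfl⟩
  obtain ⟨v, hv⟩ : ∃ v : RR A B, v = 1 + ι r * z := ⟨_, rfl⟩
  obtain ⟨u, hu⟩ : ∃ u : RR A B, u = ι (c ^ 2) * yy A B - ι (l / 2) * (v * z) := ⟨_, rfl⟩
  have hx2 := x_mem hg (le_refl 2)
  have hy3 := y_mem hg (le_refl 3)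
  have hz2 : z ∈ g.fil 2 := by
    rw [hz, neg_mul, hι]
    exact Submodule.neg_mem _ (c_mul_mem g c (Submodule.add_mem _ hx2 (c_mem g t 2)))
  have hv2 : v ∈ g.fil 2 := by
    rw [hv, hι]
    exact Submodule.add_mem _ (g.one_mem 2) (c_mul_mem g r hz2)
  have hu4 : u ∈ g.fil 4 := by
    rw [hu, hι]
    refine Submodule.sub_mem _ (c_mul_mem g _ (g.fil_mono (by norm_num) hy3)) (c_mul_mem g _ ?_)
    exact g.mul_mem (i := 2) (j := 2) hv2 hz2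
  have hc1 : ι c⁻¹ * ι c = 1 := by rw [← map_mul, inv_mul_cancel₀ hc, map_one]
  apply hI (RR A B) g 2 4 ![2, 1, 1] ![u, v, z] (fX l) (Or.inr (Or.inl ⟨rfl, rfl, rfl⟩))
  · intro h
    have h1 := congrArg (MvPolynomial.eval ![(1 : ℂ), 0, 0]) h
    unfold fX at h1
    simp at h1
  · unfold fX
    have hX : ∀ i : Fin 3, (X i : MvPolynomial (Fin 3) ℂ).IsWeightedHomogeneous ![2, 1, 1] ((![2, 1, 1] : Fin 3 → ℕ) i) :=
      fun i => isWeightedHomogeneous_X ℂ _ i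
    have h0 := (hX 0).pow 2
    have h1 := (hX 1).pow 4
    have h2 := (hX 2).pow 4
    have h3 := (((isWeightedHomogeneous_C ![2, 1, 1] l).mul (hX 0)).mul (hX 1)).mul (hX 2)
    exact ((h0.add h1).add h2).add h3
  · intro i
    fin_cases i
    · exact hu4
    · exact hv2
    · exact hz2
  · unfold fX
    simp only [map_add, map_mul, map_pow, aeval_X, aeval_C, Matrix.cons_val_zero, Matrix.cons_val_one,
      Matrix.cons_val]
    rw [← hι, EL, hu, hv, hz, map_pow]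
    linear_combination (-(1 + ι r * (-ι c * (xx A B + ι t))) ^ 2 * (-ι c * (xx A B + ι t)) ^ 2) * EM +
      ι c ^ 4 * hy + E0 + xx A B * E1 + xx A B ^ 2 * E2 + xx A B ^ 3 * E3 + xx A B ^ 4 * E4
  · -- surjectivity
    have hX : ∀ i : Fin 3, (X i : MvPolynomial (Fin 3) ℂ).IsWeightedHomogeneous ![2, 1, 1] ((![2, 1, 1] : Fin 3 → ℕ) i) :=
      fun i => isWeightedHomogeneous_X ℂ _ i
    have hX0 : (X 0 : MvPolynomial (Fin 3) ℂ).IsWeightedHomogeneous ![2, 1, 1] 2 := hX 0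
    have hX1 : (X 1 : MvPolynomial (Fin 3) ℂ).IsWeightedHomogeneous ![2, 1, 1] 1 := hX 1
    have hX2 : (X 2 : MvPolynomial (Fin 3) ℂ).IsWeightedHomogeneous ![2, 1, 1] 1 := hX 2
    have hu' : u ∈ img ![2, 1, 1] ![u, v, z] 2 := mem_img.2 ⟨X 0, hX0, aeval_X _ _⟩
    have hv' : v ∈ img ![2, 1, 1] ![u, v, z] 1 := mem_img.2 ⟨X 1, hX1, aeval_X _ _⟩
    have hz' : z ∈ img ![2, 1, 1] ![u, v, z] 1 := mem_img.2 ⟨X 2, hX2, aeval_X _ _⟩
    have hcm : ∀ (a : ℂ) (i : ℕ) (b : RR A B), b ∈ img ![2, 1, 1] ![u, v, z] i →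
        ι a * b ∈ img ![2, 1, 1] ![u, v, z] i := by
      intro a i b hb
      rw [hι, ← Algebra.smul_def]
      exact Submodule.smul_mem _ _ hb
    have h1' : (1 : RR A B) ∈ img ![2, 1, 1] ![u, v, z] 1 := by
      have h := Submodule.sub_mem _ hv' (hcm r 1 z hz')
      have h2 : v - ι r * z = 1 := by rw [hv]; ring
      rwa [h2] at h
    have hx' : xx A B ∈ img ![2, 1, 1] ![u, v, z] 1 := by
      have h := Submodule.sub_mem _ (Submodule.neg_mem _ (hcm c⁻¹ 1 z hz')) (hcm t 1 1 h1')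
      have h2 : -(ι c⁻¹ * z) - ι t * 1 = xx A B := by
        rw [hz]
        linear_combination (xx A B + ι t) * hc1
      rwa [h2] at h
    have hy' : yy A B ∈ img ![2, 1, 1] ![u, v, z] 2 := by
      have h := hcm (c⁻¹ ^ 2) 2 _ (Submodule.add_mem _ hu' (hcm (l / 2) 2 _ (img_mul hv' hz')))
      have h2 : ι (c⁻¹ ^ 2) * (u + ι (l / 2) * (v * z)) = yy A B := by
        rw [hu, map_pow, map_pow]
        linear_combination (yy A B * (ι c⁻¹ * ι c + 1)) * hc1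
      rwa [h2] at h
    intro j b hb
    rw [← mem_img]
    rw [hg] at hb
    refine (Submodule.span_le.2 ?_) hb
    rintro b (⟨a, ha, rfl⟩ | ⟨a, ha, rfl⟩)
    · exact img_le h1' (by omega) (img_pow hx' a)
    · exact img_le h1' (by omega) (img_mul (img_pow hx' a) hy')

/-- **LM-FAMT** -/
theorem famT : S_FamT := by
  intro hE hI l hl
  have hs : l ^ 3 + 27 ≠ 0 := fun h => hl (by linear_combination h)
  obtain ⟨k, hkd⟩ : ∃ k : ℂ, k = 4 * (l ^ 3 + 27) / 27 := ⟨_, rfl⟩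
  obtain ⟨t, htd⟩ : ∃ t : ℂ, t = l ^ 2 / (9 * k ^ 2) := ⟨_, rfl⟩
  obtain ⟨A, hAd⟩ : ∃ A : ℂ, A = l * (36 - k) / (36 * k ^ 4) := ⟨_, rfl⟩
  obtain ⟨B, hBd⟩ : ∃ B : ℂ, B = (k ^ 2 + 72 * k - 432) / (216 * k ^ 6) := ⟨_, rfl⟩
  obtain ⟨e0, e1, e2, e3, e4⟩ := numT hs hkd htd hAd hBd
  have hk : k ≠ 0 := by
    rw [hkd]
    exact div_ne_zero (mul_ne_zero (by norm_num) hs) (by norm_num)
  have hD : 4 * A ^ 3 + 27 * B ^ 2 ≠ 0 := by
    rw [e4]
    exact div_ne_zero (by norm_num) (mul_ne_zero (by norm_num) (pow_ne_zero 9 hk))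
  clear hkd htd hAd hBd e4
  refine ⟨A, B, hD, ?_⟩
  obtain ⟨g, hg⟩ := hE A B hD
  refine ⟨g, ?_⟩
  have hy := yy_eq A B
  obtain ⟨ι, hι⟩ : ∃ ι : ℂ →+* RR A B, ι = algebraMap ℂ (RR A B) := ⟨_, rfl⟩
  rw [← hι] at hy
  have E0 := congrArg ι e0
  have E1 := congrArg ι e1
  have E2 := congrArg ι e2
  have E3 := congrArg ι e3
  have EH : 6 * ι (1 / 6) = 1 := by
    rw [← map_ofNat ι 6, ← map_mul, ← map_one ι]
    congr 1
    norm_num
  simp only [map_add, map_sub, map_mul, map_pow, map_neg, map_zero, map_ofNat] at E0 E1 E2 E3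
  obtain ⟨z, hz⟩ : ∃ z : RR A B, z = -ι k * (xx A B + ι t) := ⟨_, rfl⟩
  obtain ⟨v, hv⟩ : ∃ v : RR A B, v = ι (1 / 6) * (1 + ι l * z - 3 * (ι (k ^ 2) * yy A B)) := ⟨_, rfl⟩
  obtain ⟨u, hu⟩ : ∃ u : RR A B, u = ι (1 / 6) * (1 + ι l * z + 3 * (ι (k ^ 2) * yy A B)) := ⟨_, rfl⟩
  have hx3 := x_mem hg (show 2 ≤ 3 by norm_num)
  have hy3 := y_mem hg (le_refl 3)
  have hz3 : z ∈ g.fil 3 := by
    rw [hz, neg_mul, hι]
    exact Submodule.neg_mem _ (c_mul_mem g k (Submodule.add_mem _ hx3 (c_mem g t 3)))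
  have h3q : 3 * (ι (k ^ 2) * yy A B) ∈ g.fil 3 := by
    rw [← map_ofNat ι 3, hι]
    exact c_mul_mem g 3 (c_mul_mem g _ hy3)
  have h1l : 1 + ι l * z ∈ g.fil 3 := by
    rw [hι]
    exact Submodule.add_mem _ (g.one_mem 3) (c_mul_mem g l hz3)
  have hv3 : v ∈ g.fil 3 := by
    rw [hv]
    have := c_mul_mem g (1 / 6) (Submodule.sub_mem _ h1l h3q)
    rwa [← hι] at this
  have hu3 : u ∈ g.fil 3 := by
    rw [hu]
    have := c_mul_mem g (1 / 6) (Submodule.add_mem _ h1l h3q)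
    rwa [← hι] at this
  have hk1 : ι k⁻¹ * ι k = 1 := by rw [← map_mul, inv_mul_cancel₀ hk, map_one]
  apply hI (RR A B) g 3 3 ![1, 1, 1] ![u, v, z] (fT l) (Or.inr (Or.inr ⟨rfl, rfl, rfl⟩))
  · intro h
    have h1 := congrArg (MvPolynomial.eval ![(1 : ℂ), 0, 0]) h
    unfold fT at h1
    simp at h1
  · unfold fT
    have hX : ∀ i : Fin 3, (X i : MvPolynomial (Fin 3) ℂ).IsWeightedHomogeneous ![1, 1, 1] ((![1, 1, 1] : Fin 3 → ℕ) i) :=
      fun i => isWeightedHomogeneous_X ℂ _ i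
    have h0 := (hX 0).pow 3
    have h1 := (hX 1).pow 3
    have h2 := (hX 2).pow 3
    have h3 := (((isWeightedHomogeneous_C ![1, 1, 1] l).mul (hX 0)).mul (hX 1)).mul (hX 2)
    exact ((h0.add h1).add h2).add h3
  · intro i
    fin_cases i
    · exact hu3
    · exact hv3
    · exact hz3
  · unfold fT
    simp only [map_add, map_mul, map_pow, aeval_X, aeval_C, Matrix.cons_val_zero, Matrix.cons_val_one,
      Matrix.cons_val]
    rw [← hι, hu, hv]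
    -- everything times `6 ^ 3`
    have h6 : (6 * ι (1 / 6)) ^ 3 = 1 := by rw [EH, one_pow]
    have key : 2 * (1 + ι l * z) ^ 2 * (1 + 4 * (ι l * z)) + 216 * z ^ 3 + 54 * (ι (k ^ 2) * yy A B) ^ 2 = 0 := by
      rw [hz, map_pow]
      linear_combination 54 * ι k ^ 4 * hy + E0 + xx A B * E1 + xx A B ^ 2 * E2 + xx A B ^ 3 * E3
    have h7 : z = ι (1 / 6) * (6 * z) := by linear_combination (-z) * EH
    obtain ⟨q, hq⟩ : ∃ q : RR A B, q = ι (k ^ 2) * yy A B := ⟨_, rfl⟩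
    rw [← hq] at key ⊢
    have h8 : (ι (1 / 6) * (1 + ι l * z + 3 * q)) ^ 3 + (ι (1 / 6) * (1 + ι l * z - 3 * q)) ^ 3 + z ^ 3 +
        ι l * (ι (1 / 6) * (1 + ι l * z + 3 * q)) * (ι (1 / 6) * (1 + ι l * z - 3 * q)) * z =
        ι (1 / 6) ^ 3 * (2 * (1 + ι l * z) ^ 2 * (1 + 4 * (ι l * z)) + 216 * z ^ 3 + 54 * q ^ 2) := by
      obtain ⟨e, he⟩ : ∃ e : RR A B, e = ι (1 / 6) := ⟨_, rfl⟩
      rw [← he] at EH h6 ⊢
      have h9 : z ^ 3 = e ^ 3 * (216 * z ^ 3) := by linear_combination (-z ^ 3) * h6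
      have h10 : ι l * (e * (1 + ι l * z + 3 * q)) * (e * (1 + ι l * z - 3 * q)) * z =
          e ^ 3 * (6 * ι l * (1 + ι l * z + 3 * q) * (1 + ι l * z - 3 * q) * z) := by
        linear_combination (-(ι l * (e * (1 + ι l * z + 3 * q)) * (e * (1 + ι l * z - 3 * q)) * z)) * EH
      rw [h10]
      linear_combination h9
    rw [h8, key, mul_zero]
  · have hX : ∀ i : Fin 3, (X i : MvPolynomial (Fin 3) ℂ).IsWeightedHomogeneous ![1, 1, 1] ((![1, 1, 1] : Fin 3 → ℕ) i) :=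
      fun i => isWeightedHomogeneous_X ℂ _ i
    have hX0 : (X 0 : MvPolynomial (Fin 3) ℂ).IsWeightedHomogeneous ![1, 1, 1] 1 := hX 0
    have hX1 : (X 1 : MvPolynomial (Fin 3) ℂ).IsWeightedHomogeneous ![1, 1, 1] 1 := hX 1
    have hX2 : (X 2 : MvPolynomial (Fin 3) ℂ).IsWeightedHomogeneous ![1, 1, 1] 1 := hX 2
    have hu' : u ∈ img ![1, 1, 1] ![u, v, z] 1 := mem_img.2 ⟨X 0, hX0, aeval_X _ _⟩
    have hv' : v ∈ img ![1, 1, 1] ![u, v, z] 1 := mem_img.2 ⟨X 1, hX1, aeval_X _ _⟩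
    have hz' : z ∈ img ![1, 1, 1] ![u, v, z] 1 := mem_img.2 ⟨X 2, hX2, aeval_X _ _⟩
    have hcm : ∀ (a : ℂ) (i : ℕ) (b : RR A B), b ∈ img ![1, 1, 1] ![u, v, z] i →
        ι a * b ∈ img ![1, 1, 1] ![u, v, z] i := by
      intro a i b hb
      rw [hι, ← Algebra.smul_def]
      exact Submodule.smul_mem _ _ hb
    have h1' : (1 : RR A B) ∈ img ![1, 1, 1] ![u, v, z] 1 := by
      have h := Submodule.sub_mem _ (hcm 3 1 _ (Submodule.add_mem _ hu' hv')) (hcm l 1 z hz')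
      have h2 : ι 3 * (u + v) - ι l * z = 1 := by
        rw [hu, hv, map_ofNat]
        linear_combination (1 + ι l * z) * EH
      rwa [h2] at h
    have hx' : xx A B ∈ img ![1, 1, 1] ![u, v, z] 1 := by
      have h := Submodule.sub_mem _ (Submodule.neg_mem _ (hcm k⁻¹ 1 z hz')) (hcm t 1 1 h1')
      have h2 : -(ι k⁻¹ * z) - ι t * 1 = xx A B := by
        rw [hz]
        linear_combination (xx A B + ι t) * hk1
      rwa [h2] at h
    have hy' : yy A B ∈ img ![1, 1, 1] ![u, v, z] 1 := by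
      have h := hcm (k⁻¹ ^ 2) 1 _ (Submodule.sub_mem _ hu' hv')
      have h2 : ι (k⁻¹ ^ 2) * (u - v) = yy A B := by
        rw [hu, hv, map_pow, map_pow]
        have h3 : ι k⁻¹ ^ 2 * (ι (1 / 6) * (1 + ι l * z + 3 * (ι k ^ 2 * yy A B)) -
            ι (1 / 6) * (1 + ι l * z - 3 * (ι k ^ 2 * yy A B))) =
            (6 * ι (1 / 6)) * (ι k⁻¹ * ι k) ^ 2 * yy A B := by ring
        rw [h3, EH, hk1, one_pow, one_mul, one_mul]
      rwa [h2] at h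
    -- all the monomials
    have hall : ∀ a b j : ℕ, 2 * a + 3 * b ≤ 3 * j → xx A B ^ a * yy A B ^ b ∈ img ![1, 1, 1] ![u, v, z] j := by
      intro a
      induction a using Nat.strong_induction_on with
      | _ a ih =>
        intro b j hab
        by_cases ha : a ≤ 2
        · exact img_le h1' (by omega) (img_mul (img_pow hx' a) (img_pow hy' b))
        · obtain ⟨a', rfl⟩ : ∃ a', a = a' + 3 := ⟨a - 3, by omega⟩
          have h1 := ih a' (by omega) (b + 2) j (by omega)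
          have h2 := hcm A j _ (ih (a' + 1) (by omega) b j (by omega))
          have h3 := hcm B j _ (ih a' (by omega) b j (by omega))
          have h4 := Submodule.sub_mem _ (Submodule.sub_mem _ h1 h2) h3
          have h5 : xx A B ^ a' * yy A B ^ (b + 2) - ι A * (xx A B ^ (a' + 1) * yy A B ^ b) -
              ι B * (xx A B ^ a' * yy A B ^ b) = xx A B ^ (a' + 3) * yy A B ^ b := by
            linear_combination (xx A B ^ a' * yy A B ^ b) * hy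
          rwa [h5] at h4
    intro j b hb
    rw [← mem_img]
    rw [hg] at hb
    refine (Submodule.span_le.2 ?_) hb
    rintro b (⟨a, ha, rfl⟩ | ⟨a, ha, rfl⟩)
    · have := hall a 0 j (by omega)
      rw [pow_zero, mul_one] at this
      exact this
    · have := hall a 1 j (by omega)
      rw [pow_one] at this
      exact this

end Pool.Agent.Q129.LM.Fam
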