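import Pool.Agent.Q55.LM.Stm

/-! Project LM of helper55, job LM-ISO (helper129): the graded description of `R_f`. -/

set_option autoImplicit false

namespace Pool.Agent.Q129.LM

open Module Pool.Agent.Q55.LM MvPolynomial

theorem surj_of_inj {V W : Type} [AddCommGroup V] [AddCommGroup W] [Module ℂ V] [Module ℂ W]
    [Module.Finite ℂ V] [Module.Finite ℂ W] (M : V →ₗ[ℂ] W) (h : finrank ℂ V = finrank ℂ W)
    (hM : Function.Injective M) : Function.Surjective M :=
  (LinearMap.injective_iff_surjective_of_finrank_eq_finrank h).1 hM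

theorem w_pos {n d : ℕ} {w : Fin 3 → ℕ} (h : Grad n d w) : ∀ i, w i ≠ 0 := by
  rcases h with ⟨-, rfl, -⟩ | ⟨-, rfl, -⟩ | ⟨-, rfl, -⟩ <;> intro i <;> fin_cases i <;> simp

theorem nd_pos {n d : ℕ} {w : Fin 3 → ℕ} (h : Grad n d w) : 1 ≤ n ∧ 1 ≤ d := by
  rcases h with ⟨rfl, -, rfl⟩ | ⟨rfl, -, rfl⟩ | ⟨rfl, -, rfl⟩ <;> omega

section
variable {B : Type} [CommRing B] [Algebra ℂ B] {g : Gen1 B} {n d : ℕ} {w : Fin 3 → ℕ}
  {ξ : Fin 3 → B}

/-- the exponents of weight `j` -/
noncomputable def EE (hw : ∀ i, w i ≠ 0) (j : ℕ) : Finset (Fin 3 →₀ ℕ) :=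
  (Finsupp.finite_of_nat_weight_eq w hw j).toFinset

theorem mem_EE (hw : ∀ i, w i ≠ 0) (j : ℕ) (e : Fin 3 →₀ ℕ) : e ∈ EE hw j ↔ Finsupp.weight w e = j := by
  unfold EE
  rw [Set.Finite.mem_toFinset]
  rfl

theorem wt3 (w : Fin 3 → ℕ) (e : Fin 3 →₀ ℕ) :
    Finsupp.weight w e = e 0 * w 0 + e 1 * w 1 + e 2 * w 2 := by
  rw [Finsupp.weight_apply, Finsupp.sum_fintype _ _ (fun i => by simp), Fin.sum_univ_three]
  rfl

/-- a power series from its coefficients -/
noncomputable def mkS (c : (Fin 3 →₀ ℕ) → ℂ) : MvPowerSeries (Fin 3) ℂ := c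

theorem coeff_mkS (c : (Fin 3 →₀ ℕ) → ℂ) (e : Fin 3 →₀ ℕ) : MvPowerSeries.coeff e (mkS c) = c e := rfl

theorem pow_mem (g : Gen1 B) {i : ℕ} {a : B} (ha : a ∈ g.fil i) (k : ℕ) : a ^ k ∈ g.fil (k * i) := by
  induction k with
  | zero => rw [pow_zero, zero_mul]; exact g.one_mem 0
  | succ k ih =>
    rw [pow_succ, Nat.succ_mul]
    exact g.mul_mem ih ha

theorem mono_mem (hξ : ∀ i, ξ i ∈ g.fil (n * w i)) (e : Fin 3 →₀ ℕ) :
    (e.prod fun i k => ξ i ^ k) ∈ g.fil (n * Finsupp.weight w e) := by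
  rw [Finsupp.prod_fintype _ _ (fun i => pow_zero _), Fin.prod_univ_three, wt3]
  have h := g.mul_mem (g.mul_mem (pow_mem g (hξ 0) (e 0)) (pow_mem g (hξ 1) (e 1)))
    (pow_mem g (hξ 2) (e 2))
  refine g.fil_mono (le_of_eq ?_) h
  ring

theorem aeval_mem (hξ : ∀ i, ξ i ∈ g.fil (n * w i)) {j : ℕ} {p : MvPolynomial (Fin 3) ℂ}
    (hp : p.IsWeightedHomogeneous w j) : aeval ξ p ∈ g.fil (n * j) := by
  rw [MvPolynomial.aeval_def, MvPolynomial.eval₂_eq]
  refine Submodule.sum_mem _ fun e he => ?_
  have h1 : Finsupp.weight w e = j := hp (mem_support_iff.1 he)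
  have h2 := mono_mem hξ e
  rw [h1] at h2
  rw [← Algebra.smul_def]
  exact Submodule.smul_mem _ _ h2

/-- the component of weight `j` of a power series -/
noncomputable def comp (hw : ∀ i, w i ≠ 0) (s : MvPowerSeries (Fin 3) ℂ) (j : ℕ) :
    MvPolynomial (Fin 3) ℂ := ∑ e ∈ EE hw j, monomial e (MvPowerSeries.coeff e s)

open Classical in
theorem coeff_comp (hw : ∀ i, w i ≠ 0) (s : MvPowerSeries (Fin 3) ℂ) (j : ℕ) (e : Fin 3 →₀ ℕ) :
    coeff e (comp hw s j) = if Finsupp.weight w e = j then MvPowerSeries.coeff e s else 0 := by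
  unfold comp
  rw [coeff_sum]
  simp only [coeff_monomial]
  rw [Finset.sum_ite_eq']
  simp only [mem_EE]

theorem comp_hom (hw : ∀ i, w i ≠ 0) (s : MvPowerSeries (Fin 3) ℂ) (j : ℕ) :
    (comp hw s j).IsWeightedHomogeneous w j := by
  classical
  intro e he
  rw [coeff_comp] at he
  by_contra hcon
  rw [if_neg hcon] at he
  exact he rfl

theorem aeval_comp (hw : ∀ i, w i ≠ 0) (s : MvPowerSeries (Fin 3) ℂ) (j : ℕ) :
    aeval ξ (comp hw s j) = ∑ e ∈ EE hw j, MvPowerSeries.coeff e s • (e.prod fun i k => ξ i ^ k) := by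
  unfold comp
  rw [map_sum]
  refine Finset.sum_congr rfl fun e _ => ?_
  rw [aeval_monomial, Algebra.smul_def]

/-- the family that is substituted -/
noncomputable def fam (w : Fin 3 → ℕ) (ξ : Fin 3 → B) (i : Fin 3) : PowerSeries B :=
  PowerSeries.C (ξ i) * PowerSeries.X ^ w i

theorem hasSubst (hw : ∀ i, w i ≠ 0) (ξ : Fin 3 → B) :
    MvPowerSeries.HasSubst (fam w ξ : Fin 3 → MvPowerSeries Unit B) := by
  apply MvPowerSeries.hasSubst_of_constantCoeff_zero
  intro i
  show PowerSeries.constantCoeff (fam w ξ i) = 0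
  unfold fam
  rw [map_mul, map_pow, PowerSeries.constantCoeff_X, zero_pow (hw i), mul_zero]

/-- the substitution -/
noncomputable def Ph (hw : ∀ i, w i ≠ 0) (ξ : Fin 3 → B) :
    MvPowerSeries (Fin 3) ℂ →ₐ[ℂ] PowerSeries B :=
  MvPowerSeries.substAlgHom (R := ℂ) (hasSubst hw ξ)

theorem fam_prod (w : Fin 3 → ℕ) (ξ : Fin 3 → B) (e : Fin 3 →₀ ℕ) :
    (e.prod fun i k => (fam w ξ i) ^ k) =
      PowerSeries.C (e.prod fun i k => ξ i ^ k) * PowerSeries.X ^ (Finsupp.weight w e) := by
  rw [Finsupp.prod_fintype _ _ (fun i => pow_zero _), Fin.prod_univ_three,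
    Finsupp.prod_fintype _ _ (fun i => pow_zero _), Fin.prod_univ_three, wt3]
  unfold fam
  simp only [map_mul, map_pow]
  ring

theorem coeff_Ph (hw : ∀ i, w i ≠ 0) (ξ : Fin 3 → B) (s : MvPowerSeries (Fin 3) ℂ) (j : ℕ) :
    PowerSeries.coeff j (Ph hw ξ s) = aeval ξ (comp hw s j) := by
  classical
  have h0 : PowerSeries.coeff j (Ph hw ξ s) =
      MvPowerSeries.coeff (Finsupp.single () j) (MvPowerSeries.subst (fam w ξ) s) := by
    unfold Ph
    rw [MvPowerSeries.substAlgHom_apply]
    rfl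
  rw [h0, MvPowerSeries.coeff_subst (hasSubst hw ξ), aeval_comp]
  have h1 : ∀ e : Fin 3 →₀ ℕ, MvPowerSeries.coeff e s •
      MvPowerSeries.coeff (Finsupp.single () j) (e.prod fun i k => (fam w ξ i) ^ k) =
      if Finsupp.weight w e = j then MvPowerSeries.coeff e s • (e.prod fun i k => ξ i ^ k) else 0 := by
    intro e
    have h2 : MvPowerSeries.coeff (Finsupp.single () j) (e.prod fun i k => (fam w ξ i) ^ k) =
        PowerSeries.coeff j (e.prod fun i k => (fam w ξ i) ^ k) := rfl
    rw [h2, fam_prod, PowerSeries.coeff_C_mul_X_pow]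
    by_cases h3 : Finsupp.weight w e = j
    · rw [if_pos h3, if_pos h3.symm]
    · rw [if_neg h3, if_neg (fun h4 => h3 h4.symm), smul_zero]
  rw [finsum_congr h1, finsum_eq_sum_of_support_subset (s := EE hw j)]
  · refine Finset.sum_congr rfl fun e he => ?_
    rw [if_pos ((mem_EE hw j e).1 he)]
  · intro e he
    rw [Function.mem_support] at he
    rw [Finset.mem_coe, mem_EE]
    by_contra hcon
    rw [if_neg hcon] at he
    exact he rfl

/-- the map to `SR g n` -/
noncomputable def Ps (hw : ∀ i, w i ≠ 0) (hξ : ∀ i, ξ i ∈ g.fil (n * w i)) :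
    MvPowerSeries (Fin 3) ℂ →ₐ[ℂ] SR g n :=
  (Ph hw ξ).codRestrict (SR g n) fun s j => by
    rw [coeff_Ph]
    exact aeval_mem hξ (comp_hom hw s j)

theorem Ps_coe (hw : ∀ i, w i ≠ 0) (hξ : ∀ i, ξ i ∈ g.fil (n * w i)) (s : MvPowerSeries (Fin 3) ℂ) :
    ((Ps hw hξ s : SR g n) : PowerSeries B) = Ph hw ξ s := rfl

theorem Ps_surj (hw : ∀ i, w i ≠ 0) (hξ : ∀ i, ξ i ∈ g.fil (n * w i))
    (hs : ∀ j : ℕ, ∀ b ∈ g.fil (n * j), ∃ p : MvPolynomial (Fin 3) ℂ, p.IsWeightedHomogeneous w j ∧
      aeval ξ p = b) : Function.Surjective (Ps hw hξ) := by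
  classical
  intro b
  choose p hp1 hp2 using fun j => hs j (PowerSeries.coeff j (b : PowerSeries B)) (b.2 j)
  refine ⟨mkS fun e => coeff e (p (Finsupp.weight w e)), ?_⟩
  apply Subtype.ext
  rw [Ps_coe]
  ext j
  rw [coeff_Ph, ← hp2 j]
  congr 1
  ext e
  rw [coeff_comp, coeff_mkS]
  by_cases h : Finsupp.weight w e = j
  · rw [if_pos h, h]
  · rw [if_neg h]
    by_contra hcon
    exact h (hp1 j (fun h2 => hcon h2.symm))

theorem mul_mono (f p : MvPolynomial (Fin 3) ℂ) : aeval ξ (f * p) = aeval ξ f * aeval ξ p := map_mul _ _ _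

theorem finrank_P (hw : ∀ i, w i ≠ 0) (j : ℕ) : Module.Finite ℂ (weightedHomogeneousSubmodule ℂ w j) ∧
    finrank ℂ (weightedHomogeneousSubmodule ℂ w j) = Set.ncard {e : Fin 3 →₀ ℕ | Finsupp.weight w e = j} := by
  have hf := (Finsupp.finite_of_nat_weight_eq w hw j)
  have := hf.to_subtype
  have e : weightedHomogeneousSubmodule ℂ w j =
      restrictSupport ℂ {e : Fin 3 →₀ ℕ | Finsupp.weight w e = j} :=
    weightedHomogeneousSubmodule_eq_finsupp_supported ℂ w j
  rw [e]
  have bs := basisRestrictSupport ℂ {e : Fin 3 →₀ ℕ | Finsupp.weight w e = j}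
  refine ⟨Module.Finite.of_basis bs, ?_⟩
  rw [Module.finrank_eq_nat_card_basis bs]
  rfl

/-- the kernel in each degree -/
theorem ker_deg [IsDomain B] (hC : S_Count) (hG : Grad n d w) (hw : ∀ i, w i ≠ 0)
    (hξ : ∀ i, ξ i ∈ g.fil (n * w i)) {f : MvPolynomial (Fin 3) ℂ} (hf0 : f ≠ 0)
    (hf : f.IsWeightedHomogeneous w d) (hfξ : aeval ξ f = 0)
    (hs : ∀ j : ℕ, ∀ b ∈ g.fil (n * j), ∃ p : MvPolynomial (Fin 3) ℂ, p.IsWeightedHomogeneous w j ∧
      aeval ξ p = b) {j : ℕ} {p : MvPolynomial (Fin 3) ℂ} (hp : p.IsWeightedHomogeneous w j)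
    (hpξ : aeval ξ p = 0) : (d ≤ j ∧ ∃ q : MvPolynomial (Fin 3) ℂ, q.IsWeightedHomogeneous w (j - d) ∧
      p = f * q) ∨ p = 0 := by
  classical
  obtain ⟨hn1, hd1⟩ := nd_pos hG
  rcases Nat.eq_zero_or_pos j with h0 | hj
  · -- constants
    right
    subst h0
    have h1 : p = C (coeff 0 p) := by
      ext e
      rw [coeff_C]
      by_cases h2 : (0 : Fin 3 →₀ ℕ) = e
      · rw [if_pos h2, h2]
      · rw [if_neg h2]
        by_contra hcon
        have h3 : Finsupp.weight w e = 0 := hp hcon
        apply h2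
        symm
        rw [wt3] at h3
        have h40 := hw 0
        have h41 := hw 1
        have h42 := hw 2
        have h5 : e 0 * w 0 = 0 := by omega
        have h6 : e 1 * w 1 = 0 := by omega
        have h7 : e 2 * w 2 = 0 := by omega
        ext i
        fin_cases i
        · simpa using (mul_eq_zero.1 h5).resolve_right h40
        · simpa using (mul_eq_zero.1 h6).resolve_right h41
        · simpa using (mul_eq_zero.1 h7).resolve_right h42
    rw [h1, aeval_C] at hpξ
    have h2 : coeff 0 p = 0 := by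
      by_contra hcon
      have h3 : algebraMap ℂ B (coeff 0 p) * algebraMap ℂ B (coeff 0 p)⁻¹ = 1 := by
        rw [← map_mul, mul_inv_cancel₀ hcon, map_one]
      rw [hpξ, zero_mul] at h3
      exact zero_ne_one h3
    rw [h1, h2, C_0]
  · obtain ⟨fP, rP⟩ := finrank_P hw j
    have hcount := hC n d w hG j hj
    rw [← rP] at hcount
    have hfil : finrank ℂ (g.fil (n * j)) = n * j :=
      g.finrank_fil _ (Nat.one_le_iff_ne_zero.2 (Nat.mul_ne_zero (by omega) (by omega)))
    have hffil : Module.Finite ℂ (g.fil (n * j)) :=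
      Module.finite_of_finrank_pos (by rw [hfil]; exact Nat.mul_pos (by omega) (by omega))
    -- the evaluation
    let L : weightedHomogeneousSubmodule ℂ w j →ₗ[ℂ] g.fil (n * j) :=
      ((aeval ξ : MvPolynomial (Fin 3) ℂ →ₐ[ℂ] B).toLinearMap).restrict
        (fun p hp => aeval_mem hξ ((mem_weightedHomogeneousSubmodule ℂ w j p).1 hp))
    have hLs : Function.Surjective L := by
      rintro ⟨b, hb⟩
      obtain ⟨q, hq1, hq2⟩ := hs j b hb
      refine ⟨⟨q, (mem_weightedHomogeneousSubmodule ℂ w j q).2 hq1⟩, ?_⟩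
      apply Subtype.ext
      exact hq2
    have hrk := LinearMap.finrank_range_add_finrank_ker L
    rw [LinearMap.range_eq_top.2 hLs, finrank_top, hfil] at hrk
    have hpL : (⟨p, (mem_weightedHomogeneousSubmodule ℂ w j p).2 hp⟩ : weightedHomogeneousSubmodule ℂ w j) ∈
        LinearMap.ker L := by
      rw [LinearMap.mem_ker]
      apply Subtype.ext
      exact hpξ
    by_cases hdj : d ≤ j
    · left
      refine ⟨hdj, ?_⟩
      rw [if_pos hdj] at hcount
      obtain ⟨fP', rP'⟩ := finrank_P hw (j - d)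
      rw [← rP'] at hcount
      -- the multiplication with `f`
      have hmul : ∀ q : weightedHomogeneousSubmodule ℂ w (j - d),
          f * (q : MvPolynomial (Fin 3) ℂ) ∈ weightedHomogeneousSubmodule ℂ w j := by
        intro q
        rw [mem_weightedHomogeneousSubmodule]
        have h1 := hf.mul ((mem_weightedHomogeneousSubmodule ℂ w (j - d) _).1 q.2)
        rwa [Nat.add_sub_cancel' hdj] at h1
      let M : weightedHomogeneousSubmodule ℂ w (j - d) →ₗ[ℂ] LinearMap.ker L :=
        { toFun := fun q => ⟨⟨f * (q : MvPolynomial (Fin 3) ℂ), hmul q⟩, by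
            rw [LinearMap.mem_ker]
            apply Subtype.ext
            show aeval ξ (f * (q : MvPolynomial (Fin 3) ℂ)) = 0
            rw [map_mul, hfξ, zero_mul]⟩
          map_add' := by
            intro a b
            apply Subtype.ext
            apply Subtype.ext
            show f * ((a : MvPolynomial (Fin 3) ℂ) + (b : MvPolynomial (Fin 3) ℂ)) = _
            rw [mul_add]
            rfl
          map_smul' := by
            intro c a
            apply Subtype.ext
            apply Subtype.ext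
            show f * (c • (a : MvPolynomial (Fin 3) ℂ)) = _
            rw [mul_smul_comm]
            rfl }
      have hMi : Function.Injective M := by
        intro a b hab
        have h1 : f * (a : MvPolynomial (Fin 3) ℂ) = f * (b : MvPolynomial (Fin 3) ℂ) :=
          congrArg (fun x : LinearMap.ker L => ((x : weightedHomogeneousSubmodule ℂ w j) :
            MvPolynomial (Fin 3) ℂ)) hab
        exact Subtype.ext (mul_left_cancel₀ hf0 h1)
      have fK : Module.Finite ℂ (LinearMap.ker L) := inferInstance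
      have hMs : Function.Surjective M := by
        have h1 : finrank ℂ (weightedHomogeneousSubmodule ℂ w (j - d)) = finrank ℂ (LinearMap.ker L) := by
          omega
        exact @surj_of_inj (weightedHomogeneousSubmodule ℂ w (j - d)) (LinearMap.ker L)
          (Submodule.addCommGroup _) (Submodule.addCommGroup _) (Submodule.module _) (Submodule.module _)
          fP' fK M h1 hMi
      obtain ⟨q, hq⟩ := hMs ⟨_, hpL⟩
      refine ⟨q, (mem_weightedHomogeneousSubmodule ℂ w (j - d) _).1 q.2, ?_⟩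
      exact (congrArg (fun x : LinearMap.ker L => ((x : weightedHomogeneousSubmodule ℂ w j) :
            MvPolynomial (Fin 3) ℂ)) hq).symm
    · right
      rw [if_neg hdj] at hcount
      have h1 : finrank ℂ (LinearMap.ker L) = 0 := by omega
      rw [Submodule.finrank_eq_zero] at h1
      rw [h1, Submodule.mem_bot] at hpL
      exact congrArg (fun x : weightedHomogeneousSubmodule ℂ w j => (x : MvPolynomial (Fin 3) ℂ)) hpL

end

/-- **LM-ISO** -/
theorem iso (h : S_Count) : S_Iso := by
  classical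
  intro B _ _ _ g n d w ξ f hG hf0 hf hξ hfξ hs
  have hw := w_pos hG
  obtain ⟨hn1, hd1⟩ := nd_pos hG
  have hsurj := Ps_surj hw hξ hs
  have hz : ∀ s, Ps hw hξ s = 0 ↔ ∀ j, aeval ξ (comp hw s j) = 0 := by
    intro s
    constructor
    · intro h1 j
      rw [← coeff_Ph hw ξ s j, ← Ps_coe hw hξ s, h1]
      simp
    · intro h1
      apply Subtype.ext
      rw [Ps_coe]
      ext j
      rw [coeff_Ph, h1 j]
      simp
  have hker : RingHom.ker (Ps hw hξ) = Ideal.span {(f : MvPowerSeries (Fin 3) ℂ)} := by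
    ext s
    rw [RingHom.mem_ker, Ideal.mem_span_singleton']
    constructor
    · intro h1
      rw [hz] at h1
      have h2 : ∀ j, ∃ q : MvPolynomial (Fin 3) ℂ, (d ≤ j → q.IsWeightedHomogeneous w (j - d)) ∧
          (d ≤ j → comp hw s j = f * q) ∧ (j < d → comp hw s j = 0) := by
        intro j
        rcases ker_deg h hG hw hξ hf0 hf hfξ hs (comp_hom hw s j) (h1 j) with ⟨h3, q, h4, h5⟩ | h3
        · exact ⟨q, fun _ => h4, fun _ => h5, fun h6 => absurd h3 (by omega)⟩
        · exact ⟨0, fun _ => isWeightedHomogeneous_zero ℂ w _, fun _ => by rw [h3, mul_zero], fun _ => h3⟩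
      choose q hq1 hq2 hq3 using h2
      refine ⟨mkS fun e => coeff e (q (Finsupp.weight w e + d)), ?_⟩
      rw [mul_comm]
      ext e
      rw [MvPowerSeries.coeff_mul]
      have h3 : ∀ x ∈ Finset.HasAntidiagonal.antidiagonal e, MvPowerSeries.coeff x.1 (f : MvPowerSeries (Fin 3) ℂ) *
          MvPowerSeries.coeff x.2 (mkS fun e => coeff e (q (Finsupp.weight w e + d))) =
          coeff x.1 f * coeff x.2 (q (Finsupp.weight w e)) := by
        intro x hx
        rw [MvPolynomial.coeff_coe, coeff_mkS]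
        by_cases h4 : coeff x.1 f = 0
        · rw [h4, zero_mul, zero_mul]
        · have h5 : Finsupp.weight w x.1 = d := hf h4
          have h6 : Finsupp.weight w e = Finsupp.weight w x.2 + d := by
            rw [← Finset.HasAntidiagonal.mem_antidiagonal.1 hx, map_add, h5, add_comm]
          rw [h6]
      rw [Finset.sum_congr rfl h3, ← MvPolynomial.coeff_mul]
      have h7 : MvPowerSeries.coeff e s = coeff e (comp hw s (Finsupp.weight w e)) := by
        rw [coeff_comp, if_pos rfl]
      rw [h7]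
      by_cases h8 : d ≤ Finsupp.weight w e
      · rw [hq2 _ h8]
      · rw [hq3 _ (by omega), MvPolynomial.coeff_mul, coeff_zero]
        apply Finset.sum_eq_zero
        intro x hx
        by_cases h4 : coeff x.1 f = 0
        · rw [h4, zero_mul]
        · have h5 : Finsupp.weight w x.1 = d := hf h4
          have h6 : Finsupp.weight w e = Finsupp.weight w x.2 + d := by
            rw [← Finset.HasAntidiagonal.mem_antidiagonal.1 hx, map_add, h5, add_comm]
          omega
    · rintro ⟨t, rfl⟩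
      rw [map_mul]
      have h1 : Ps hw hξ (f : MvPowerSeries (Fin 3) ℂ) = 0 := by
        rw [hz]
        intro j
        by_cases hj : j = d
        · have h2 : comp hw (f : MvPowerSeries (Fin 3) ℂ) j = f := by
            ext e
            rw [coeff_comp, MvPolynomial.coeff_coe]
            by_cases h3 : Finsupp.weight w e = j
            · rw [if_pos h3]
            · rw [if_neg h3]
              by_contra hcon
              exact h3 (by rw [hj]; exact hf (fun h4 => hcon h4.symm))
          rw [h2, hfξ]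
        · have h2 : comp hw (f : MvPowerSeries (Fin 3) ℂ) j = 0 := by
            ext e
            rw [coeff_comp, MvPolynomial.coeff_coe, coeff_zero]
            by_cases h3 : Finsupp.weight w e = j
            · rw [if_pos h3]
              by_contra hcon
              exact hj (by rw [← h3]; exact hf hcon)
            · rw [if_neg h3]
          rw [h2, map_zero]
      rw [h1, mul_zero]
  exact ⟨(Ideal.quotientEquivAlgOfEq ℂ hker.symm).trans (Ideal.quotientKerAlgEquivOfSurjective hsurj)⟩

end Pool.Agent.Q129.LM
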